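import Pool.Agent.Helper89.SPN.LFT0

/-!
# MP_005e41, row LFA: an automorphism of a quotient acts on the adjoint group as a standard one
-/

set_option autoImplicit false

namespace Pool.Agent.Helper89.SPN

open Matrix Pool.Agent.Helper14.RG Pool.Agent.Helper97.CG Pool.Agent.Helper97.SPN

universe u v w x

theorem st_LFA (hLFD : ST_LFD.{u, u, w}) : ST_LFA.{u, w, x} := by
  intro k _ _ _ ι _ _ n J S _ A φ hgood hJ hcov Q _ π hπ hZ σ hreg
  have hF : ∀ i, AU.LF (J i) := fun i => AU.lf_good (hgood i) (hJ i)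
  have hfin : Finite (Subgroup.center (∀ i, IsoG (J i))) := AU.finite_center_prod hF
  have hcp := center_iff_pi hcov hfin hπ hZ
  have hΦ : Function.Surjective (Phi φ) := Phi_surj fun i => (hcov i).surj
  let Z : Subgroup Q := Subgroup.center Q
  -- well defined
  have hwd : ∀ s s' : ∀ i, S i, Phi φ s = Phi φ s' →
      (QuotientGroup.mk (π s) : Q ⧸ Z) = QuotientGroup.mk (π s') := by
    intro s s' h
    rw [QuotientGroup.eq, ← map_inv, ← map_mul]
    refine (hcp _).mpr ((center_iff_Phi hcov _).mpr ?_)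
    rw [map_mul, map_inv, h, inv_mul_cancel]
    exact one_mem _
  choose sec hsec using hΦ
  let πad : (∀ i, IsoG (J i)) →* Q ⧸ Z :=
    { toFun := fun g => QuotientGroup.mk (π (sec g))
      map_one' := by
        rw [hwd (sec 1) 1 (by rw [hsec, map_one]), map_one]
        rfl
      map_mul' := by
        intro g h
        rw [hwd (sec (g * h)) (sec g * sec h) (by rw [hsec, map_mul, hsec, hsec]), map_mul]
        rfl }
  have hπad : ∀ s, πad (Phi φ s) = QuotientGroup.mk (π s) := fun s => hwd _ _ (hsec _)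
  have hπads : Function.Surjective πad := by
    intro q
    obtain ⟨y, rfl⟩ := QuotientGroup.mk_surjective q
    obtain ⟨s, rfl⟩ := hπ y
    exact ⟨Phi φ s, hπad s⟩
  have hZad : πad.ker ≤ Subgroup.center (∀ i, IsoG (J i)) := by
    intro g hg
    rw [MonoidHom.mem_ker] at hg
    have h1 : π (sec g) ∈ Subgroup.center Q := (QuotientGroup.eq_one_iff (N := Z) _).mp hg
    have h2 := (center_iff_Phi hcov _).mp ((hcp _).mp h1)
    rw [hsec] at h2
    exact h2
  have hmap : Z.map (σ : Q →* Q) = Z := by
    ext q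
    rw [Subgroup.mem_map]
    constructor
    · rintro ⟨y, hy, rfl⟩
      rw [Subgroup.mem_center_iff] at hy ⊢
      intro z
      obtain ⟨z', rfl⟩ := σ.surjective z
      show σ z' * σ y = σ y * σ z'
      rw [← map_mul, ← map_mul, hy z']
    · intro hq
      refine ⟨σ.symm q, ?_, σ.apply_symm_apply q⟩
      rw [Subgroup.mem_center_iff] at hq ⊢
      intro z
      apply σ.injective
      rw [map_mul, map_mul, σ.apply_symm_apply]
      exact hq _
  let σad : (Q ⧸ Z) ≃* (Q ⧸ Z) := QuotientGroup.congr Z Z σ hmap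
  have hσad : ∀ q : Q, σad (QuotientGroup.mk q) = QuotientGroup.mk (σ q) := fun q => rfl
  have hregad : ∀ f ∈ quotAlg (prodAlg fun i => mAlg (isoHom (J i))) πad,
      (fun q => f (σad q)) ∈ quotAlg (prodAlg fun i => mAlg (isoHom (J i))) πad := by
    intro f hf
    have h1 : (fun q : Q => f (QuotientGroup.mk q)) ∈ quotAlg (prodAlg A) π := by
      have h2 := Phi_pull hcov hf
      show (fun s => f (QuotientGroup.mk (π s))) ∈ prodAlg A
      have e : (fun s => f (QuotientGroup.mk (π s))) = fun s => f (πad (Phi φ s)) := by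
        funext s
        rw [hπad]
      rw [e]
      exact h2
    have h3 : (fun s => f (QuotientGroup.mk (σ (π s)))) ∈ prodAlg A := hreg _ h1
    refine hLFD k ι (fun i => IsoG (J i)) S (fun i => mAlg (isoHom (J i))) A φ hcov _ ?_
    have e : (fun s : ∀ i, S i => f (σad (πad (fun i => φ i (s i)))))
        = fun s => f (QuotientGroup.mk (σ (π s))) := by
      funext s
      have h4 : πad (fun i => φ i (s i)) = QuotientGroup.mk (π s) := hπad s
      rw [h4, hσad]
    rw [e]
    exact h3
  choose r hr using hπads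
  have hact := fun i => AU.isAct_lift (σ := σad) hF hZad hregad hr i
  choose D hD using fun i => (hact i).exists_diff
  have St : AU.Setup J πad σad r D := ⟨hF, hZad, fun q => ⟨r q, hr q⟩, hr, hact, hD⟩
  obtain ⟨p, τ, hτ, hrel⟩ := St.exists_tau fun i j hi hj => AU.lieStd_all (hgood j) (hgood i) hj hi
  have hex := St.exact hregad p τ hτ hrel
  refine ⟨p, τ, hτ, fun s t hst => ?_⟩
  have h1 := hex (Phi φ s)
  have h2 : (fun i => τ i (Phi φ s (p i))) = Phi φ t := funext fun i => (hst i).symm
  rw [h2, hπad, hπad, hσad, QuotientGroup.eq] at h1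
  have h3 := Z.inv_mem h1
  rw [_root_.mul_inv_rev, inv_inv] at h3
  have h4 := (Subgroup.mem_center_iff.mp h3) (π t)
  rw [← mul_assoc, mul_inv_cancel, one_mul] at h4
  have h5 : σ (π s) * (π t)⁻¹ = (π t)⁻¹ * σ (π s) := by
    calc σ (π s) * (π t)⁻¹ = ((π t)⁻¹ * σ (π s) * π t) * (π t)⁻¹ := by rw [← h4]
      _ = (π t)⁻¹ * σ (π s) := by group
  rw [h5]
  exact h3

end Pool.Agent.Helper89.SPN
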