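import Pool.Agent.Helper89.SPN.LFT0

/-!
# MP_005e41, row LFE: exactness of a lift
-/

set_option autoImplicit false

namespace Pool.Agent.Helper89.SPN

open Matrix Pool.Agent.Helper14.RG Pool.Agent.Helper97.CG Pool.Agent.Helper97.SPN

universe u v w x

theorem st_LFE : ST_LFE.{u, w, x} := by
  intro k _ _ _ ι _ _ n J S _ A φ hgood hJ hcov Q _ π hπ hZ σ hreg T hT hσ s
  have hF : ∀ i, AU.LF (J i) := fun i => AU.lf_good (hgood i) (hJ i)
  have hfin : Finite (Subgroup.center (∀ i, IsoG (J i))) := AU.finite_center_prod hF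
  have hfc := finite_center_cov hcov hfin
  have hfk : Finite π.ker := Finite.of_injective
    (fun z : π.ker => (⟨z.1, hZ z.2⟩ : Subgroup.center (∀ i, S i)))
    (fun z z' h => Subtype.ext (congrArg
      (Subtype.val : Subgroup.center (∀ i, S i) → ∀ i, S i) h))
  have hr : RStable (prodAlg A) := RStable.prod fun i => (hcov i).rst
  have hl : LStable (prodAlg A) := lstable_prod fun i => lstable_of_grp (hcov i).grp
  have hcq := (center_quot hcov hfin hπ hZ).to_subtype
  obtain ⟨w, hw⟩ := irr_cover (Irr.prod fun i => (hcov i).irr)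
    (fun (w : ((Subgroup.center Q : Subgroup Q) : Set Q)) (s : ∀ i, S i) =>
      σ (π s) = w * π (T s))
    (fun s => ⟨⟨_, hσ s⟩, by group⟩) (by
      intro w s hs
      obtain ⟨f, hf, hne⟩ := AU.sep_quot hr (sep_prod fun i => (hcov i).sep) π hπ hs
      refine ⟨fun s => f (σ (π s)) - f (w * π (T s)), ?_, sub_ne_zero.mpr hne, ?_⟩
      · refine (prodAlg A).sub_mem (hreg f hf) ?_
        obtain ⟨u, hu⟩ := hπ (w : Q)
        have h1 := hT _ (hl u _ hf)
        have e : (fun s => f (w * π (T s))) = fun s => f (π (u * T s)) := by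
          funext s
          rw [map_mul, hu]
        rw [e]
        exact h1
      · intro y hy
        show f (σ (π y)) - f (w * π (T y)) = 0
        rw [hy, sub_self])
  have h1 := hw 1
  rw [map_one, map_one, map_one, map_one, mul_one] at h1
  have h2 := hw s
  rw [← h1, one_mul] at h2
  exact h2

end Pool.Agent.Helper89.SPN
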