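import Pool.Agent.Helper97.SPN.Stmts2

/-!
# MP_005e41, rows LFA and LFE: general lemmas

Irreducibility, finite kernels, centres.
-/

set_option autoImplicit false

namespace Pool.Agent.Helper89.SPN

open Matrix Pool.Agent.Helper14.RG Pool.Agent.Helper97.CG Pool.Agent.Helper97.SPN

section General

variable {k : Type*} [Field k]

/-- an irreducible space is not a finite union of proper closed subsets -/
lemma irr_cover {X : Type*} {B : Subalgebra k (X → k)} (hB : Irr B) {W : Type*} [Finite W]
    (P : W → X → Prop) (hc : ∀ x, ∃ w, P w x)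
    (hcl : ∀ w x, ¬ P w x → ∃ b ∈ B, b x ≠ 0 ∧ ∀ y, P w y → b y = 0) : ∃ w, ∀ x, P w x := by
  classical
  have := Fintype.ofFinite W
  by_contra hcon
  push Not at hcon
  choose x hx using hcon
  choose b hb hbx hby using fun w => hcl w (x w) (hx w)
  have := hB.isDomain
  let Ψ : W → B := fun w => ⟨b w, hb w⟩
  have h1 : ∀ w, Ψ w ≠ 0 := by
    intro w h0
    exact hbx w (congrFun (congrArg Subtype.val h0) (x w))
  have h2 : ∏ w, Ψ w = 0 := by
    apply Subtype.ext
    funext y
    have h3 : ((∏ w, Ψ w : B) : X → k) y = ∏ w, (Ψ w : X → k) y := by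
      rw [SubmonoidClass.coe_finsetProd, Finset.prod_apply]
    rw [h3]
    obtain ⟨w, hw⟩ := hc y
    exact Finset.prod_eq_zero (Finset.mem_univ w) (hby w y hw)
  exact (Finset.prod_ne_zero_iff.mpr fun w _ => h1 w) h2

/-- the algebra is stable under left translations -/
def LStable {G : Type*} [Group G] (B : Subalgebra k (G → k)) : Prop :=
  ∀ h : G, ∀ a ∈ B, (fun g => a (h * g)) ∈ B

lemma lstable_of_grp {G : Type*} [Group G] {B : Subalgebra k (G → k)} (h : GrpAlg B) :
    LStable B := fun g _ ha =>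
  h.mul B (fun _ => g) (fun x => x) (fun b _ => B.algebraMap_mem (b g)) (fun _ hb => hb) ha

lemma lstable_prod {C : Type*} [Fintype C] [DecidableEq C] {G : C → Type*} [∀ c, Group (G c)]
    {A : ∀ c, Subalgebra k (G c → k)} (h : ∀ c, LStable (A c)) : LStable (prodAlg A) := by
  intro h' a ha
  induction ha using Algebra.adjoin_induction with
  | mem x hx =>
    obtain ⟨c', a', ha', rfl⟩ := hx
    exact mem_prodAlg A c' (h c' (h' c') a' ha')
  | algebraMap r => exact Subalgebra.algebraMap_mem _ r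
  | add x y _ _ hx hy => exact add_mem hx hy
  | mul x y _ _ hx hy => exact mul_mem hx hy

/-- an element whose commutators form a finite set is central -/
lemma comm_of_fin {G : Type*} [Group G] {B : Subalgebra k (G → k)} (hB : Irr B)
    (hr : RStable B) (hl : LStable B) (hsep : ∀ x y : G, x ≠ y → ∃ b ∈ B, b x ≠ b y)
    {W : Set G} (hW : W.Finite) (s : G) (h : ∀ t, s * t * s⁻¹ * t⁻¹ ∈ W) :
    s ∈ Subgroup.center G := by
  have := hW.to_subtype
  obtain ⟨w, hw⟩ := irr_cover hB (fun (w : W) (t : G) => s * t * s⁻¹ = w * t)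
    (fun t => ⟨⟨_, h t⟩, by group⟩) (by
      intro w t ht
      obtain ⟨b, hb, hne⟩ := hsep _ _ ht
      refine ⟨fun t => b (s * t * s⁻¹) - b (w * t), ?_, sub_ne_zero.mpr hne, ?_⟩
      · exact B.sub_mem (hl s _ (hr s⁻¹ b hb)) (hl w b hb)
      · intro y hy
        show b (s * y * s⁻¹) - b (w * y) = 0
        rw [hy, sub_self])
  have h1 := hw 1
  rw [mul_one, mul_one, mul_inv_cancel] at h1
  rw [Subgroup.mem_center_iff]
  intro t
  have h2 := hw t
  rw [← h1, one_mul] at h2
  calc t * s = (s * t * s⁻¹) * s := by rw [h2]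
    _ = s * t := by group

/-- fibres of a homomorphism with finite kernel -/
lemma fin_fibre {G H : Type*} [Group G] [Group H] (φ : G →* H) [Finite φ.ker] (b : H) :
    (φ ⁻¹' {b}).Finite := by
  rcases Set.eq_empty_or_nonempty (φ ⁻¹' {b}) with h | ⟨x, hx⟩
  · rw [h]
    exact Set.finite_empty
  · refine Set.Finite.subset (Set.finite_range (fun z : φ.ker => x * z)) ?_
    intro y hy
    have h1 : φ x = b := hx
    have h2 : φ y = b := hy
    refine ⟨⟨x⁻¹ * y, ?_⟩, ?_⟩
    · rw [MonoidHom.mem_ker, map_mul, map_inv, h1, h2, inv_mul_cancel]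
    · exact mul_inv_cancel_left x y

lemma fin_preimage {G H : Type*} [Group G] [Group H] (φ : G →* H) [Finite φ.ker] {s : Set H}
    (hs : s.Finite) : (φ ⁻¹' s).Finite :=
  hs.preimage' fun b _ => fin_fibre φ b

lemma sep_prod {C : Type*} [Fintype C] [DecidableEq C] {G : C → Type*}
    {A : ∀ c, Subalgebra k (G c → k)} (h : ∀ c, ∀ x y : G c, x ≠ y → ∃ a ∈ A c, a x ≠ a y)
    (x y : ∀ c, G c) (hxy : x ≠ y) : ∃ b ∈ prodAlg A, b x ≠ b y := by
  obtain ⟨c, hc⟩ := Function.ne_iff.mp hxy
  obtain ⟨a, ha, hne⟩ := h c _ _ hc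
  exact ⟨_, mem_prodAlg A c ha, hne⟩

end General

section Cover

variable {k : Type*} [Field k] {ι : Type*} {G S : ι → Type*} [∀ i, Group (G i)]
  [∀ i, Group (S i)]

/-- the product of homomorphisms -/
def Phi (φ : ∀ i, S i →* G i) : (∀ i, S i) →* ∀ i, G i where
  toFun s i := φ i (s i)
  map_one' := funext fun i => map_one (φ i)
  map_mul' s t := funext fun i => map_mul (φ i) (s i) (t i)

@[simp] lemma Phi_apply (φ : ∀ i, S i →* G i) (s : ∀ i, S i) (i : ι) :
    Phi φ s i = φ i (s i) := rfl

lemma Phi_surj {φ : ∀ i, S i →* G i} (h : ∀ i, Function.Surjective (φ i)) :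
    Function.Surjective (Phi φ) := by
  intro g
  choose s hs using fun i => h i (g i)
  exact ⟨s, funext hs⟩

lemma Phi_fin [Finite ι] {φ : ∀ i, S i →* G i} (h : ∀ i, Finite (φ i).ker) :
    Finite (Phi φ).ker := by
  refine Finite.of_injective (fun (z : (Phi φ).ker) (i : ι) => (⟨z.1 i, ?_⟩ : (φ i).ker)) ?_
  · exact congrFun (MonoidHom.mem_ker.mp z.2) i
  · intro z z' hz
    apply Subtype.ext
    funext i
    exact congrArg Subtype.val (congrFun hz i)

variable [Fintype ι] [DecidableEq ι] {B : ∀ i, Subalgebra k (G i → k)}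
  {A : ∀ i, Subalgebra k (S i → k)} {φ : ∀ i, S i →* G i}

lemma Phi_pull (h : ∀ i, IsCov (B i) (A i) (φ i)) {f : (∀ i, G i) → k} (hf : f ∈ prodAlg B) :
    (fun s => f (Phi φ s)) ∈ prodAlg A := by
  induction hf using Algebra.adjoin_induction with
  | mem x hx =>
    obtain ⟨c, a, ha, rfl⟩ := hx
    exact mem_prodAlg A c ((h c).pull a ha)
  | algebraMap r => exact Subalgebra.algebraMap_mem _ r
  | add x y _ _ hx hy => exact add_mem hx hy
  | mul x y _ _ hx hy => exact mul_mem hx hy

/-- central elements of a product of coverings -/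
lemma center_iff_Phi (h : ∀ i, IsCov (B i) (A i) (φ i)) (s : ∀ i, S i) :
    s ∈ Subgroup.center (∀ i, S i) ↔ Phi φ s ∈ Subgroup.center (∀ i, G i) := by
  constructor
  · intro hs
    rw [Subgroup.mem_center_iff] at hs ⊢
    intro g
    obtain ⟨t, rfl⟩ := Phi_surj (fun i => (h i).surj) g
    rw [← map_mul, ← map_mul, hs t]
  · intro hs
    have := Phi_fin fun i => (h i).fin
    refine comm_of_fin (Irr.prod fun i => (h i).irr) (RStable.prod fun i => (h i).rst)
      (lstable_prod fun i => lstable_of_grp (h i).grp) (sep_prod fun i => (h i).sep)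
      (W := ((Phi φ).ker : Set (∀ i, S i))) (Set.toFinite _) s fun t => ?_
    rw [SetLike.mem_coe, MonoidHom.mem_ker, map_mul, map_mul, map_mul, map_inv, map_inv,
      ← Subgroup.mem_center_iff.mp hs (Phi φ t)]
    group

lemma finite_center_cov (h : ∀ i, IsCov (B i) (A i) (φ i))
    (hfin : Finite (Subgroup.center (∀ i, G i))) : Finite (Subgroup.center (∀ i, S i)) := by
  have := Phi_fin fun i => (h i).fin
  have h1 : (Phi φ ⁻¹' (Subgroup.center (∀ i, G i) : Set (∀ i, G i))).Finite :=
    fin_preimage _ (Set.toFinite _)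
  have h2 : ((Subgroup.center (∀ i, S i) : Subgroup (∀ i, S i)) : Set (∀ i, S i)).Finite :=
    h1.subset fun s hs => (center_iff_Phi h s).mp hs
  exact h2.to_subtype

/-- central elements of a quotient by a central subgroup -/
lemma center_iff_pi (h : ∀ i, IsCov (B i) (A i) (φ i))
    (hfin : Finite (Subgroup.center (∀ i, G i))) {Q : Type*} [Group Q] {π : (∀ i, S i) →* Q}
    (hπ : Function.Surjective π) (hZ : π.ker ≤ Subgroup.center (∀ i, S i)) (s : ∀ i, S i) :
    π s ∈ Subgroup.center Q ↔ s ∈ Subgroup.center (∀ i, S i) := by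
  constructor
  · intro hs
    have := finite_center_cov h hfin
    refine comm_of_fin (Irr.prod fun i => (h i).irr) (RStable.prod fun i => (h i).rst)
      (lstable_prod fun i => lstable_of_grp (h i).grp) (sep_prod fun i => (h i).sep)
      (W := (Subgroup.center (∀ i, S i) : Set (∀ i, S i))) (Set.toFinite _) s fun t => ?_
    apply hZ
    rw [MonoidHom.mem_ker, map_mul, map_mul, map_mul, map_inv, map_inv,
      ← Subgroup.mem_center_iff.mp hs (π t)]
    group
  · intro hs
    rw [Subgroup.mem_center_iff] at hs ⊢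
    intro q
    obtain ⟨t, rfl⟩ := hπ q
    rw [← map_mul, ← map_mul, hs t]

lemma center_quot (h : ∀ i, IsCov (B i) (A i) (φ i))
    (hfin : Finite (Subgroup.center (∀ i, G i))) {Q : Type*} [Group Q] {π : (∀ i, S i) →* Q}
    (hπ : Function.Surjective π) (hZ : π.ker ≤ Subgroup.center (∀ i, S i)) :
    ((Subgroup.center Q : Subgroup Q) : Set Q).Finite := by
  have := finite_center_cov h hfin
  refine Set.Finite.subset (s := π '' (Subgroup.center (∀ i, S i) : Set (∀ i, S i))) ?_ ?_
  · exact Set.Finite.image _ (Set.toFinite _)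
  · intro q hq
    obtain ⟨s, rfl⟩ := hπ q
    exact ⟨s, (center_iff_pi h hfin hπ hZ s).mp hq, rfl⟩

end Cover

end Pool.Agent.Helper89.SPN
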