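import Pool.Agent.Helper97.SPN.Stmts
import Pool.Agent.Helper76.CG.II

/-!
# Row OI of spn_mods: the oriented chart for every isometry of finite order
-/

namespace Pool.Agent.Helper97.SPN

open MvPolynomial Matrix Pool.Agent.Helper14.RG Pool.Agent.Helper97.CG

universe u

section Aux

variable {k : Type u} [Field k] {n m : Type} [Fintype n] [DecidableEq n] [Fintype m]
  [DecidableEq m]

lemma proj_diag (L : n → k) (f : k → k) (hf : ∀ i, f (L i) * f (L i) = f (L i)) :
    Proj (diagonal L) (diagonal fun i => f (L i)) := by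
  refine ⟨?_, ?_⟩
  · rw [diagonal_mul_diagonal]
    exact congrArg _ (funext hf)
  · intro x hx
    ext i j
    have h1 := congrFun (congrFun hx i) j
    rw [diagonal_mul, mul_diagonal] at h1 ⊢
    by_cases h2 : x i j = 0
    · rw [h2, mul_zero, zero_mul]
    · have h3 : L i = L j := by
        apply mul_right_cancel₀ h2
        rw [h1, mul_comm]
      rw [h3, mul_comm]

/-- a projection in the bicommutant of a diagonal matrix with the same fixed vectors -/
lemma proj_eq (L : n → k) [DecidableEq k] (E : Matrix n n k) (h : Proj (diagonal L) E)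
    (h1 : diagonal L * E = E) (h2 : ∀ v : n → k, diagonal L *ᵥ v = v → E *ᵥ v = v) :
    E = diagonal fun i => if L i = 1 then 1 else 0 := by
  have h3 : ∀ i j, i ≠ j → E i j = 0 := by
    intro i j hij
    have h4 : E * diagonal (Pi.single j (1 : k)) = diagonal (Pi.single j (1 : k)) * E := by
      apply h.comm
      rw [diagonal_mul_diagonal, diagonal_mul_diagonal]
      exact congrArg _ (funext fun i => mul_comm _ _)
    have h5 := congrFun (congrFun h4 i) j
    rw [mul_diagonal, diagonal_mul, Pi.single_eq_same, Pi.single_eq_of_ne hij, mul_one,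
      zero_mul] at h5
    exact h5
  ext i j
  by_cases hij : i = j
  · subst hij
    rw [diagonal_apply_eq]
    by_cases hL : L i = 1
    · rw [if_pos hL]
      have h4 : diagonal L *ᵥ (Pi.single i (1 : k)) = Pi.single i (1 : k) := by
        funext l
        rw [mulVec_diagonal]
        by_cases hl : l = i
        · subst hl
          rw [Pi.single_eq_same, hL, one_mul]
        · rw [Pi.single_eq_of_ne hl, mul_zero]
      have h5 := congrFun (h2 _ h4) i
      rw [Matrix.mulVec_single_one, Pi.single_eq_same] at h5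
      exact h5
    · rw [if_neg hL]
      have h4 := congrFun (congrFun h1 i) i
      rw [diagonal_mul] at h4
      have h5 : (L i - 1) * E i i = 0 := by rw [sub_mul, h4, one_mul, sub_self]
      exact (mul_eq_zero.mp h5).resolve_left (sub_ne_zero.mpr hL)
  · rw [diagonal_apply_ne _ hij, h3 i j hij]

lemma proj_conj {s E : Matrix n n k} {u : Matrix n m k} {v : Matrix m n k} (huv : u * v = 1)
    (hvu : v * u = 1) (h : Proj s E) : Proj (v * s * u) (v * E * u) := by
  have hcj : ∀ a b : Matrix n n k, (v * a * u) * (v * b * u) = v * (a * b) * u := by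
    intro a b
    calc (v * a * u) * (v * b * u) = v * a * (u * v) * b * u := by simp only [Matrix.mul_assoc]
      _ = v * (a * b) * u := by rw [huv, Matrix.mul_one]; simp only [Matrix.mul_assoc]
  refine ⟨?_, ?_⟩
  · rw [hcj, h.idem]
  · intro x hx
    have hx1 : x = v * (u * x * v) * u := by
      calc x = (v * u) * x * (v * u) := by rw [hvu, Matrix.one_mul, Matrix.mul_one]
        _ = v * (u * x * v) * u := by simp only [Matrix.mul_assoc]
    have hx2 : s * (u * x * v) = (u * x * v) * s := by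
      calc s * (u * x * v) = (u * v) * (s * (u * x * v)) := by
            rw [huv, Matrix.one_mul]
        _ = u * ((v * s * u) * x) * v := by simp only [Matrix.mul_assoc]
        _ = u * (x * (v * s * u)) * v := by rw [hx]
        _ = ((u * x * v) * s) * (u * v) := by simp only [Matrix.mul_assoc]
        _ = (u * x * v) * s := by rw [huv, Matrix.mul_one]
    rw [hx1, hcj, hcj, h.comm _ hx2]

end Aux

theorem st_OI {k : Type u} [Field k] [IsAlgClosed k] [CharZero k] (hOT : ST_OT k)
    (hON : ST_ON k) (hOP : ST_OP k) (hOL : ST_OL k) (hGLC : ST_GLC k) (hNF1 : ST_NF1 k) :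
    ST_OI k := by
  intro n _ _ J s E h hJ hs N hN hsN hsE hfix
  classical
  have h2k : (2 : k) ≠ 0 := two_ne_zero
  have hneg : (-1 : k) ≠ 1 := by
    intro h0
    apply h2k
    linear_combination -h0
  let R : k → k → Prop := WellOrderingRel
  have R_asymm : ∀ a b, R a b → ¬ R b a := fun a b h h' => asymm h h'
  have R_tri : ∀ a b, ¬ R a b → ¬ R b a → a = b := by
    intro a b h h'
    rcases trichotomous_of (WellOrderingRel (α := k)) a b with h1 | h1 | h1
    · exact absurd h1 h
    · exact h1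
    · exact absurd h1 h'
  let P : k → Prop := fun l => R l l⁻¹
  have hPas : ∀ l, P l → ¬ P l⁻¹ := by
    intro l h1 h2
    have h3 : R l⁻¹ l⁻¹⁻¹ := h2
    rw [inv_inv] at h3
    exact R_asymm _ _ h1 h3
  obtain ⟨e, w, u, v, χ, χw, Jw, h1, h2, hu, hv, hP, hPw, hJw, hχw⟩ :=
    hNF1 n 1 J s hJ hs N hN hsN P hPas
  have hS : Spl (fun a b : k => a = b) P := by
    refine ⟨?_, ?_, ?_, hPas⟩
    · rintro a b h
      exact h.symm
    · rintro a b rfl h
      exact h
    · rintro a b rfl
      rfl
  have hpm : ∀ j, χw j = 1 ∨ χw j = -1 := by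
    intro j
    obtain ⟨p1, p2, p3⟩ := hPw j
    have p2' : ¬ R (χw j)⁻¹ (χw j)⁻¹⁻¹ := p2
    rw [inv_inv] at p2'
    have p4 : χw j = (χw j)⁻¹ := R_tri _ _ p1 p2'
    have p5 : χw j * χw j = 1 := by
      nth_rw 2 [p4]
      exact mul_inv_cancel₀ p3
    exact mul_self_eq_one_iff.mp p5
  have hχ1 : ∀ i, χ i ≠ 1 := by
    intro i hi
    have h3 := (hP i).1
    rw [hi] at h3
    have h4 := hPas 1 h3
    rw [inv_one] at h4
    exact h4 h3
  have hχ1' : ∀ i, (χ i)⁻¹ ≠ 1 := by
    intro i hi
    exact hχ1 i (inv_eq_one.mp hi)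
  obtain ⟨f, hf⟩ : ∃ f : k → k, f = fun l => if l = 1 then 1 else 0 := ⟨_, rfl⟩
  have hfi : ∀ l, f l * f l = f l := by
    intro l
    rw [hf]
    show (if l = 1 then (1 : k) else 0) * (if l = 1 then (1 : k) else 0) = if l = 1 then 1 else 0
    split_ifs
    · exact one_mul 1
    · exact zero_mul 0
  have hfw : ∀ j, f (χw j) = (1 + χw j) / 2 := by
    intro j
    rw [hf]
    show (if χw j = 1 then (1 : k) else 0) = _
    rcases hpm j with hj | hj
    · rw [if_pos hj, hj, one_add_one_eq_two, div_self h2k]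
    · rw [if_neg (by rw [hj]; exact hneg), hj, add_neg_cancel, zero_div]
  have hfχ : ∀ i, f (χ i) = 0 := by
    intro i
    rw [hf]
    exact if_neg (hχ1 i)
  have hfχ' : ∀ i, f (χ i)⁻¹ = 0 := by
    intro i
    rw [hf]
    exact if_neg (hχ1' i)
  obtain ⟨Ew, hEw⟩ : ∃ Ew : Matrix (Fin w) (Fin w) k, Ew = diagonal fun j => (1 + χw j) / 2 :=
    ⟨_, rfl⟩
  -- the projection
  have hp1 := proj_conj h1 h2 h
  have hEu : v * E * u = dg 0 0 Ew := by
    have e1 : v * s * u = diagonal (Lam χ χw) := by
      rw [hv, dg_diagonal]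
      rfl
    have e2 : Proj (diagonal (Lam χ χw)) (v * E * u) := by
      rw [← e1]
      exact hp1
    have e3 : diagonal (Lam χ χw) * (v * E * u) = v * E * u := by
      rw [← e1]
      calc v * s * u * (v * E * u) = v * s * (u * v) * E * u := by simp only [Matrix.mul_assoc]
        _ = v * (s * E) * u := by rw [h1, Matrix.mul_one]; simp only [Matrix.mul_assoc]
        _ = v * E * u := by rw [hsE]
    have e4 : ∀ z : Fin e ⊕ (Fin e ⊕ Fin w) → k, diagonal (Lam χ χw) *ᵥ z = z →
        (v * E * u) *ᵥ z = z := by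
      intro z hz
      rw [← e1] at hz
      have e5 : s *ᵥ (u *ᵥ z) = u *ᵥ z := by
        calc s *ᵥ (u *ᵥ z) = (u * v * s * u) *ᵥ z := by
              rw [h1, Matrix.one_mul, Matrix.mulVec_mulVec]
          _ = u *ᵥ ((v * s * u) *ᵥ z) := by
              rw [Matrix.mulVec_mulVec]; simp only [Matrix.mul_assoc]
          _ = u *ᵥ z := by rw [hz]
      calc (v * E * u) *ᵥ z = v *ᵥ (E *ᵥ (u *ᵥ z)) := by
            rw [Matrix.mulVec_mulVec, Matrix.mulVec_mulVec]
        _ = v *ᵥ (u *ᵥ z) := by rw [hfix _ e5]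
        _ = z := by rw [Matrix.mulVec_mulVec, h2, Matrix.one_mulVec]
    rw [proj_eq (Lam χ χw) (v * E * u) e2 e3 e4]
    have e6 : (fun i => if Lam χ χw i = 1 then (1 : k) else 0)
        = Sum.elim (fun _ => 0) (Sum.elim (fun _ => 0) fun j => (1 + χw j) / 2) := by
      funext i
      have e7 : (if Lam χ χw i = 1 then (1 : k) else 0) = f (Lam χ χw i) := by rw [hf]
      rw [e7]
      rcases i with i | i | i
      · exact hfχ i
      · exact hfχ' i
      · exact hfw i
    rw [e6, ← dg_diagonal, Matrix.diagonal_zero, hEw]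
  have hinv : ((diagonal χ : Matrix (Fin e) (Fin e) k)ᵀ)⁻¹ = diagonal fun i => (χ i)⁻¹ := by
    apply Matrix.inv_eq_right_inv
    rw [diagonal_transpose, diagonal_mul_diagonal]
    ext i j
    rw [Matrix.diagonal_apply, Matrix.one_apply]
    split_ifs with hij
    · exact mul_inv_cancel₀ (hP i).2
    · rfl
  have hdet : (diagonal χ : Matrix (Fin e) (Fin e) k).det ≠ 0 := by
    rw [det_diagonal]
    exact Finset.prod_ne_zero_iff.mpr fun i _ => (hP i).2
  -- the oriented chart of the last block
  have hq2 : Proj (diagonal χw) Ew := by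
    have e1 := proj_diag χw f fun i => hfi _
    have e2 : (fun i => f (χw i)) = fun j => (1 + χw j) / 2 := funext hfw
    rw [e2, ← hEw] at e1
    exact e1
  have hw : HC0 (isoHom Jw) (diagonal χw) Ew hq2 := by
    subst hEw
    exact hON w Jw χw hq2 hJw hχw hpm
  have hq1 : Proj (fromBlocks (diagonal χ) 0 0 (diagonal χw)) (fromBlocks 0 0 0 Ew) := by
    have e1 := proj_diag (Sum.elim χ χw) f fun i => hfi _
    have e2 : (fun i => f (Sum.elim χ χw i)) = Sum.elim (fun _ => 0) fun j => (1 + χw j) / 2 := by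
      funext i
      rcases i with i | i
      · exact hfχ i
      · exact hfw i
    rw [e2, ← Matrix.fromBlocks_diagonal, ← Matrix.fromBlocks_diagonal, Matrix.diagonal_zero,
      ← hEw] at e1
    exact e1
  have hpr : HC0 (pHom (glHom (Fin e) k) (isoHom Jw)) (fromBlocks (diagonal χ) 0 0 (diagonal χw))
      (fromBlocks 0 0 0 Ew) hq1 :=
    hOP _ _ (Fin e) (Fin w) (glHom (Fin e) k) (isoHom Jw) (diagonal χ) (diagonal χw) Ew hq2 hq1
      (hGLC e χ) hw
  have hmain : ∀ (J' s' E' : Matrix (Fin e ⊕ (Fin e ⊕ Fin w)) (Fin e ⊕ (Fin e ⊕ Fin w)) k)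
      (h3 : Proj s' E'), J' = LJ (Fin e) 1 Jw →
      s' = dg (diagonal χ) ((diagonal χ)ᵀ)⁻¹ (diagonal χw) → E' = dg 0 0 Ew →
      HC0 (isoHom J') s' E' h3 := by
    intro J' s' E' h3 h4 h5 h6
    subst h4 h5 h6
    refine hOL e (Fin w) Jw hJw (diagonal χ) (diagonal χw) Ew hdet hχw ?_ hq1 h3 hpr
    intro x hx
    refine blk hS (fun i => (hP i).1) (fun j => ⟨(hPw j).1, (hPw j).2.1⟩) _ ?_
    intro i j hij
    rw [hinv, dg_diagonal] at hx
    have h7 := diag_scal (Lam χ χw) (isoHom _ x) (c := 1) (by rw [one_smul]; exact hx) i j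
    apply mul_right_cancel₀ hij
    rw [h7]
    ring
  exact hOT n _ J s E u v h hp1 h1 h2 (hmain _ _ _ hp1 hu (by rw [hv, hinv]) hEu)

end Pool.Agent.Helper97.SPN
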