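import Pool.Agent.Helper97.SPN.Stmts

/-!
# Row ON of spn_mods: oriented charts, eigenvalues `1` and `-1` in any order
-/

namespace Pool.Agent.Helper97.SPN

open MvPolynomial Matrix Pool.Agent.Helper14.RG Pool.Agent.Helper97.CG

universe u

lemma on_aux {k : Type u} [Field k] [IsAlgClosed k] [CharZero k] (hOW : ST_OW k) (hOT : ST_OT k)
    {w p q : ℕ} (hpq : p ≤ q) (Jw : Matrix (Fin w) (Fin w) k) (χ : Fin w → k)
    (e : Fin p ⊕ Fin q ≃ Fin w) (hl : ∀ i, χ (e (Sum.inl i)) = 1)
    (hr : ∀ i, χ (e (Sum.inr i)) = -1) (hJ : IsForm 1 Jw)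
    (hχJ : (diagonal χ)ᵀ * Jw * diagonal χ = Jw)
    (h : Proj (diagonal χ) (diagonal fun j => (1 + χ j) / 2)) :
    HC0 (isoHom Jw) (diagonal χ) (diagonal fun j => (1 + χ j) / 2) h := by
  classical
  obtain ⟨E, hEd⟩ : ∃ E : Matrix (Fin w) (Fin w) k, E = diagonal fun j => (1 + χ j) / 2 := ⟨_, rfl⟩
  have h2k : (2 : k) ≠ 0 := two_ne_zero
  let u : Matrix (Fin w) (Fin p ⊕ Fin q) k := (1 : Matrix (Fin w) (Fin w) k).submatrix id e
  let v : Matrix (Fin p ⊕ Fin q) (Fin w) k := (1 : Matrix (Fin w) (Fin w) k).submatrix e id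
  have huv : u * v = 1 := by
    show (1 : Matrix (Fin w) (Fin w) k).submatrix id e *
      (1 : Matrix (Fin w) (Fin w) k).submatrix e id = 1
    rw [Matrix.submatrix_mul_equiv, Matrix.one_mul, Matrix.submatrix_id_id]
  have hmul : ∀ M : Matrix (Fin w) (Fin w) k, v * M * u = M.submatrix e e := by
    intro M
    ext i j
    have h1 : ∀ (i : Fin p ⊕ Fin q) (l : Fin w), (v * M) i l = M (e i) l := by
      intro i l
      rw [Matrix.mul_apply, Finset.sum_eq_single (e i)]
      · show (1 : Matrix (Fin w) (Fin w) k) (e i) (e i) * M (e i) l = _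
        rw [Matrix.one_apply_eq, one_mul]
      · intro b _ hb
        show (1 : Matrix (Fin w) (Fin w) k) (e i) b * M b l = _
        rw [Matrix.one_apply_ne (Ne.symm hb), zero_mul]
      · intro h
        exact absurd (Finset.mem_univ _) h
    rw [Matrix.mul_apply, Finset.sum_eq_single (e j)]
    · rw [h1]
      show M (e i) (e j) * (1 : Matrix (Fin w) (Fin w) k) (e j) (e j) = M (e i) (e j)
      rw [Matrix.one_apply_eq, mul_one]
    · intro b _ hb
      show (v * M) i b * (1 : Matrix (Fin w) (Fin w) k) b (e j) = _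
      rw [Matrix.one_apply_ne hb, mul_zero]
    · intro h
      exact absurd (Finset.mem_univ _) h
  have hvu : v * u = 1 := by
    have h1 := hmul 1
    rw [Matrix.mul_one] at h1
    rw [h1]
    exact Matrix.submatrix_one_equiv e
  have huT : uᵀ = v := by
    show ((1 : Matrix (Fin w) (Fin w) k).submatrix id e)ᵀ = _
    rw [Matrix.transpose_submatrix, Matrix.transpose_one]
  have hent : ∀ i j, χ i * Jw i j * χ j = Jw i j := by
    intro i j
    have h1 := congrFun (congrFun hχJ i) j
    rw [Matrix.mul_diagonal, Matrix.diagonal_transpose, Matrix.diagonal_mul] at h1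
    exact h1
  let Jp : Matrix (Fin p) (Fin p) k := Jw.submatrix (e ∘ Sum.inl) (e ∘ Sum.inl)
  let Jq : Matrix (Fin q) (Fin q) k := Jw.submatrix (e ∘ Sum.inr) (e ∘ Sum.inr)
  have hJe : Jw.submatrix e e = fromBlocks Jp 0 0 Jq := by
    ext i j
    rcases i with i | i <;> rcases j with j | j
    · rfl
    · have h1 := hent (e (Sum.inl i)) (e (Sum.inr j))
      rw [hl, hr] at h1
      have h2 : 2 * Jw (e (Sum.inl i)) (e (Sum.inr j)) = 0 := by linear_combination -h1
      exact (mul_eq_zero.mp h2).resolve_left h2k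
    · have h1 := hent (e (Sum.inr i)) (e (Sum.inl j))
      rw [hl, hr] at h1
      have h2 : 2 * Jw (e (Sum.inr i)) (e (Sum.inl j)) = 0 := by linear_combination -h1
      exact (mul_eq_zero.mp h2).resolve_left h2k
    · rfl
  have hse : (diagonal χ).submatrix e e
      = (fromBlocks 1 0 0 (-1) : Matrix (Fin p ⊕ Fin q) (Fin p ⊕ Fin q) k) := by
    rw [Matrix.submatrix_diagonal_equiv]
    ext i j
    rcases i with i | i <;> rcases j with j | j
    · rw [fromBlocks_apply₁₁]
      by_cases hij : i = j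
      · subst hij
        rw [diagonal_apply_eq, Matrix.one_apply_eq]
        exact hl i
      · rw [diagonal_apply_ne _ (fun h => hij (Sum.inl_injective h)), Matrix.one_apply_ne hij]
    · rw [fromBlocks_apply₁₂, diagonal_apply_ne _ Sum.inl_ne_inr, Matrix.zero_apply]
    · rw [fromBlocks_apply₂₁, diagonal_apply_ne _ Sum.inr_ne_inl, Matrix.zero_apply]
    · rw [fromBlocks_apply₂₂]
      by_cases hij : i = j
      · subst hij
        rw [diagonal_apply_eq, Matrix.neg_apply, Matrix.one_apply_eq]
        exact hr i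
      · rw [diagonal_apply_ne _ (fun h => hij (Sum.inr_injective h)), Matrix.neg_apply,
          Matrix.one_apply_ne hij, neg_zero]
  have hEe : E.submatrix e e
      = (fromBlocks 1 0 0 0 : Matrix (Fin p ⊕ Fin q) (Fin p ⊕ Fin q) k) := by
    rw [hEd, Matrix.submatrix_diagonal_equiv]
    ext i j
    rcases i with i | i <;> rcases j with j | j
    · rw [fromBlocks_apply₁₁]
      by_cases hij : i = j
      · subst hij
        rw [diagonal_apply_eq, Matrix.one_apply_eq]
        show (1 + χ (e (Sum.inl i))) / 2 = 1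
        rw [hl, one_add_one_eq_two, div_self h2k]
      · rw [diagonal_apply_ne _ (fun h => hij (Sum.inl_injective h)), Matrix.one_apply_ne hij]
    · rw [fromBlocks_apply₁₂, diagonal_apply_ne _ Sum.inl_ne_inr, Matrix.zero_apply]
    · rw [fromBlocks_apply₂₁, diagonal_apply_ne _ Sum.inr_ne_inl, Matrix.zero_apply]
    · rw [fromBlocks_apply₂₂, Matrix.zero_apply]
      by_cases hij : i = j
      · subst hij
        rw [diagonal_apply_eq]
        show (1 + χ (e (Sum.inr i))) / 2 = 0
        rw [hr, add_neg_cancel, zero_div]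
      · rw [diagonal_apply_ne _ (fun h => hij (Sum.inr_injective h))]
  have hdet : Jp.det * Jq.det ≠ 0 := by
    rw [← Matrix.det_fromBlocks_zero₂₁, ← hJe, Matrix.det_submatrix_equiv_self]
    exact hJ.det_ne
  have hsym : ∀ i j, Jw j i = 1 * Jw i j := by
    intro i j
    exact congrFun (congrFun hJ.symm i) j
  have hp : IsForm 1 Jp := ⟨hJ.eps, by
    ext i j
    exact hsym _ _, left_ne_zero_of_mul hdet⟩
  have hq : IsForm 1 Jq := ⟨hJ.eps, by
    ext i j
    exact hsym _ _, right_ne_zero_of_mul hdet⟩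
  have hJu : uᵀ * Jw * u = fromBlocks Jp 0 0 Jq := by rw [huT, hmul, hJe]
  have hsu : v * diagonal χ * u = fromBlocks 1 0 0 (-1) := by rw [hmul, hse]
  have hEu : v * E * u = fromBlocks 1 0 0 0 := by rw [hmul, hEe]
  have hcj : ∀ a b : Matrix (Fin w) (Fin w) k, (v * a * u) * (v * b * u) = v * (a * b) * u := by
    intro a b
    calc (v * a * u) * (v * b * u) = v * a * (u * v) * b * u := by simp only [Matrix.mul_assoc]
      _ = v * (a * b) * u := by rw [huv, Matrix.mul_one]; simp only [Matrix.mul_assoc]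
  have h' : Proj (v * diagonal χ * u) (v * E * u) := by
    refine ⟨?_, ?_⟩
    · rw [hcj, hEd, h.idem]
    · intro x hx
      have hx1 : x = v * (u * x * v) * u := by
        calc x = (v * u) * x * (v * u) := by rw [hvu, Matrix.one_mul, Matrix.mul_one]
          _ = v * (u * x * v) * u := by simp only [Matrix.mul_assoc]
      have hx2 : diagonal χ * (u * x * v) = (u * x * v) * diagonal χ := by
        calc diagonal χ * (u * x * v) = (u * v) * (diagonal χ * (u * x * v)) := by
              rw [huv, Matrix.one_mul]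
          _ = u * ((v * diagonal χ * u) * x) * v := by simp only [Matrix.mul_assoc]
          _ = u * (x * (v * diagonal χ * u)) * v := by rw [hx]
          _ = ((u * x * v) * diagonal χ) * (u * v) := by simp only [Matrix.mul_assoc]
          _ = (u * x * v) * diagonal χ := by rw [huv, Matrix.mul_one]
      rw [hx1, hcj, hcj, hEd, h.comm _ hx2]
  have hmain : ∀ (J' s' E' : Matrix (Fin p ⊕ Fin q) (Fin p ⊕ Fin q) k) (h3 : Proj s' E'),
      J' = fromBlocks Jp 0 0 Jq → s' = fromBlocks 1 0 0 (-1) → E' = fromBlocks 1 0 0 0 →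
      HC0 (isoHom J') s' E' h3 := by
    intro J' s' E' h3 h4 h5 h6
    subst h4 h5 h6
    exact hOW p q Jp Jq h3 hpq hp hq
  have h7 := hOT (Fin w) (Fin p ⊕ Fin q) Jw (diagonal χ) E u v (by rw [hEd]; exact h) h' huv hvu
    (hmain _ _ _ h' hJu hsu hEu)
  subst hEd
  exact h7

lemma Proj.swap {k : Type u} [Field k] {n : Type} [Fintype n] [DecidableEq n] {s E : Matrix n n k}
    (h : Proj s E) : Proj (-s) (1 - E) := by
  refine ⟨?_, ?_⟩
  · rw [Matrix.mul_sub, Matrix.sub_mul, Matrix.sub_mul, h.idem]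
    simp only [Matrix.one_mul, Matrix.mul_one]
    rw [sub_self, sub_zero]
  · intro x hx
    have h1 : s * x = x * s := by
      rw [Matrix.neg_mul, Matrix.mul_neg] at hx
      exact neg_injective hx
    rw [Matrix.sub_mul, Matrix.mul_sub, h.comm x h1, Matrix.one_mul, Matrix.mul_one]

lemma cm0_swap {k : Type u} [Field k] {n : Type} [Fintype n] [DecidableEq n]
    {J s E : Matrix n n k} (h : Proj s E) :
    cm0 (isoHom J) (-s) (1 - E) h.swap = cm0 (isoHom J) s E h := by
  ext g
  show (-s * isoHom J g = isoHom J g * -s ∧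
    (isoHom J g * (1 - E) + (1 - (1 - E))).det = 1) ↔
    (s * isoHom J g = isoHom J g * s ∧ (isoHom J g * E + (1 - E)).det = 1)
  have h0 : (-s * isoHom J g = isoHom J g * -s) ↔ (s * isoHom J g = isoHom J g * s) := by
    rw [Matrix.neg_mul, Matrix.mul_neg, neg_inj]
  rw [h0]
  refine and_congr_right fun hs => ?_
  obtain ⟨x, hx⟩ : ∃ x : Matrix n n k, x = isoHom J g := ⟨_, rfl⟩
  have hd : x.det = 1 := by
    rw [hx]
    exact (g : Matrix.SpecialLinearGroup n k).2
  rw [← hx] at hs ⊢
  have hE := h.comm x hs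
  have h1 : (x * E + (1 - E)) * (x * (1 - E) + (1 - (1 - E))) = x := by
    have e1 : x * E * (x * (1 - E)) = 0 := by
      rw [Matrix.mul_sub x, Matrix.mul_one, Matrix.mul_sub]
      have e2 : x * E * (x * E) = x * E * x := by
        calc x * E * (x * E) = x * (E * x) * E := by simp only [Matrix.mul_assoc]
          _ = x * (x * E) * E := by rw [hE]
          _ = x * (x * (E * E)) := by simp only [Matrix.mul_assoc]
          _ = x * (x * E) := by rw [h.idem]
          _ = x * (E * x) := by rw [hE]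
          _ = x * E * x := by simp only [Matrix.mul_assoc]
      rw [e2, sub_self]
    have e3 : x * E * (1 - (1 - E)) = x * E := by
      rw [sub_sub_cancel, Matrix.mul_assoc, h.idem]
    have e4 : (1 - E) * (x * (1 - E)) = x * (1 - E) := by
      have e5 : (1 - E) * x = x * (1 - E) := by
        rw [Matrix.sub_mul, Matrix.mul_sub, hE, Matrix.one_mul, Matrix.mul_one]
      rw [← Matrix.mul_assoc, e5, Matrix.mul_assoc, h.swap.idem]
    have e6 : (1 - E) * (1 - (1 - E)) = 0 := by
      rw [sub_sub_cancel, Matrix.sub_mul, Matrix.one_mul, h.idem, sub_self]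
    rw [Matrix.add_mul, Matrix.mul_add, Matrix.mul_add, e1, e3, e4, e6, zero_add, add_zero,
      ← Matrix.mul_add, add_sub_cancel, Matrix.mul_one]
  have h2 := congrArg det h1
  rw [det_mul, hd] at h2
  constructor
  · intro h3
    rw [h3, mul_one] at h2
    exact h2
  · intro h3
    rw [h3, one_mul] at h2
    exact h2

lemma cm_neg {k : Type u} [Field k] {n : Type} [Fintype n] [DecidableEq n] {J s : Matrix n n k} :
    cm (isoHom J) (-s) = cm (isoHom J) s := by
  ext g
  show (-s * isoHom J g = isoHom J g * -s) ↔ (s * isoHom J g = isoHom J g * s)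
  rw [Matrix.neg_mul, Matrix.mul_neg, neg_inj]

theorem st_ON {k : Type u} [Field k] [IsAlgClosed k] [CharZero k] (hOW : ST_OW k)
    (hOT : ST_OT k) : ST_ON k := by
  classical
  intro w Jw χ h hJ hχJ hχ
  have h2k : (2 : k) ≠ 0 := two_ne_zero
  let P : Fin w → Prop := fun j => χ j = 1
  have hpm : ∀ j, ¬ P j → χ j = -1 := fun j hj => (hχ j).resolve_left hj
  obtain ⟨p, ⟨ep⟩⟩ : ∃ p : ℕ, Nonempty ({j // P j} ≃ Fin p) :=
    ⟨_, ⟨Fintype.equivFin _⟩⟩
  obtain ⟨q, ⟨eq⟩⟩ : ∃ q : ℕ, Nonempty ({j // ¬ P j} ≃ Fin q) :=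
    ⟨_, ⟨Fintype.equivFin _⟩⟩
  rcases le_total p q with hpq | hpq
  · exact on_aux hOW hOT hpq Jw χ ((Equiv.sumCongr ep.symm eq.symm).trans (Equiv.sumCompl P))
      (fun i => (ep.symm i).2) (fun i => hpm _ (eq.symm i).2) hJ hχJ h
  · have hn : diagonal (fun j => -χ j) = -diagonal χ := by
      rw [Matrix.diagonal_neg]
    have hE : (diagonal fun j => (1 + -χ j) / 2) = 1 - diagonal fun j => (1 + χ j) / 2 := by
      rw [← Matrix.diagonal_one, Matrix.diagonal_sub]
      refine congrArg _ (funext fun j => ?_)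
      field_simp
      ring
    have hs := h.swap
    rw [← hn, ← hE] at hs
    have h1 := on_aux hOW hOT hpq Jw (fun j => -χ j)
      (((Equiv.sumCongr eq.symm ep.symm).trans (Equiv.sumComm _ _)).trans (Equiv.sumCompl P))
      (fun i => by
        show -χ _ = 1
        have h2 : χ (eq.symm i : {j // ¬ P j}) = -1 := hpm _ (eq.symm i).2
        exact (congrArg Neg.neg h2).trans (neg_neg 1))
      (fun i => congrArg Neg.neg (ep.symm i).2) hJ (by
        rw [hn, transpose_neg, Matrix.neg_mul, Matrix.neg_mul, Matrix.mul_neg, neg_neg]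
        exact hχJ) hs
    have h3 : ∀ (s' E' : Matrix (Fin w) (Fin w) k) (h' : Proj s' E'), s' = -diagonal χ →
        E' = 1 - (diagonal fun j => (1 + χ j) / 2) → HC0 (isoHom Jw) s' E' h' →
        HC0 (isoHom Jw) (diagonal χ) (diagonal fun j => (1 + χ j) / 2) h := by
      intro s' E' h' h4 h5 h6
      subst h4 h5
      unfold HC0 at h6 ⊢
      rw [cm0_swap h, cm_neg] at h6
      exact h6
    exact h3 _ _ hs hn hE h1

end Pool.Agent.Helper97.SPN
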