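import Pool.Agent.Helper97.SPN.Stmts
import Pool.Agent.Helper52.CG.TRN

/-!
# Row OT of spn_mods: change of basis for the oriented charts
-/

namespace Pool.Agent.Helper97.SPN

open MvPolynomial Matrix Pool.Agent.Helper14.RG Pool.Agent.Helper97.CG Pool.Agent.Helper52.CG

universe u

lemma det_cm0_conj {k : Type u} [Field k] {n m : Type} [Fintype n] [DecidableEq n] [Fintype m]
    [DecidableEq m] (u : Matrix n m k) (v : Matrix m n k) (huv : u * v = 1) (hvu : v * u = 1)
    (x E : Matrix n n k) :
    ((v * x * u) * (v * E * u) + (1 - v * E * u)).det = (x * E + (1 - E)).det := by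
  have h1 : (v * x * u) * (v * E * u) + (1 - v * E * u) = v * (x * E + (1 - E)) * u := by
    rw [conj_mul u v huv, Matrix.mul_add, Matrix.add_mul, Matrix.mul_sub, Matrix.sub_mul,
      Matrix.mul_one, hvu]
  rw [h1, Matrix.det_conj_of_mul_eq_one hvu huv]

theorem st_OT {k : Type u} [Field k] [IsAlgClosed k] [CharZero k] : ST_OT k := by
  intro n m _ _ _ _ J s E u v h h' huv hvu hc
  have h1 := hasLChart_congr (A1 := mAlg (isoHom J)) hc (cj J u v huv hvu) (by
    intro a ha
    induction ha using Algebra.adjoin_induction with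
    | mem x hx =>
      obtain ⟨i, j, rfl⟩ := hx
      show (fun g : IsoG J => (v * isoHom J g * u) i j) ∈ mAlg (isoHom J)
      have h2 : (fun g : IsoG J => (v * isoHom J g * u) i j)
          = ∑ l : n, ∑ l' : n, (v i l' * u l j) • (fun g : IsoG J => isoHom J g l' l) := by
        funext g
        simp only [Finset.sum_apply, Pi.smul_apply, smul_eq_mul, Matrix.mul_apply,
          Finset.sum_mul]
        exact Finset.sum_congr rfl fun l _ => Finset.sum_congr rfl fun l' _ => by ring
      rw [h2]
      have h3 : ∀ l' l : n, (fun g : IsoG J => isoHom J g l' l) ∈ mAlg (isoHom J) :=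
        fun l' l => Algebra.subset_adjoin ⟨l', l, rfl⟩
      exact sum_mem fun l _ => sum_mem fun l' _ => Subalgebra.smul_mem _ (h3 l' l) _
    | algebraMap r => exact Subalgebra.algebraMap_mem _ r
    | add x y _ _ hx hy => exact add_mem hx hy
    | mul x y _ _ hx hy => exact mul_mem hx hy)
  have e0 : ∀ g : IsoG J, ((v * s * u) * (v * isoHom J g * u) =
      (v * isoHom J g * u) * (v * s * u)) ↔ s * isoHom J g = isoHom J g * s := by
    intro g
    rw [conj_mul u v huv, conj_mul u v huv]
    exact ⟨fun h => conj_inj u v huv h, fun h => by rw [h]⟩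
  have e1 : (cm0 (isoHom (uᵀ * J * u)) (v * s * u) (v * E * u) h').comap
      (cj J u v huv hvu).toMonoidHom = cm0 (isoHom J) s E h := by
    ext g
    show ((v * s * u) * (v * isoHom J g * u) = (v * isoHom J g * u) * (v * s * u) ∧
      ((v * isoHom J g * u) * (v * E * u) + (1 - v * E * u)).det = 1) ↔
      (s * isoHom J g = isoHom J g * s ∧ (isoHom J g * E + (1 - E)).det = 1)
    rw [e0 g, det_cm0_conj u v huv hvu]
  have e2 : (cm (isoHom (uᵀ * J * u)) (v * s * u)).comap (cj J u v huv hvu).toMonoidHom
      = cm (isoHom J) s := by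
    ext g
    exact e0 g
  rw [e1, e2] at h1
  exact h1

end Pool.Agent.Helper97.SPN
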